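import Pool.Agent.MTN.Stmts
import Pool.Agent.Helper64_MTD.Ela

/-!
# MTN, module ELZ: elimination of the unknown rational structure in windows at algebraic points
-/

set_option autoImplicit false

namespace Pool.Agent.MTN.H64

open Matrix Polynomial Pool.Agent.MT100 Pool.Agent.MT100G Pool.Agent.MT100A Pool.Agent.MT100D
  Pool.Agent.Helper78_MT Pool.Agent.MTL Pool.Agent.MTN.H53 Pool.Agent.MT100G.H29
  Pool.Agent.MT100D.H64

variable {d : Type} [Fintype d] [DecidableEq d]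

/-- the relations of NMZ for families of rows -/
lemma num_rowsZ {F : Family d} {k n' : ℕ} (κ : Fin n' → ℕ) (M0 : Set (Matrix d d ℂ)) (w : ℂ)
    (hnum : ∀ c : (Fin n' × Fin k → d) → (Fin n' × Fin k → d) → ℂ,
      (∀ β α, c β α ∈ IntermediateField.adjoin ℚ {w}) →
      tf c (fun i => F.Y (w - κ i) * F.R w) = 0 →
      ∀ g : Fin n' → Matrix d d ℂ, (∀ i, g i ∈ M0) →
        tf c (fun i => F.Y (w - κ i) * g i * F.R w) = 0)
    (a : Fin n' → Fin k → d) (c : (Fin n' → Fin k → d) → ℚ)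
    (hc : ∑ β, algebraMap ℚ ℂ (c β) *
      ∏ i, ∏ j, (F.Y (w - κ i) * F.R w) (a i j) (β i j) = 0)
    (g : Fin n' → Matrix d d ℂ) (hg : ∀ i, g i ∈ M0) :
    ∑ β, algebraMap ℚ ℂ (c β) *
      ∏ i, ∏ j, (F.Y (w - κ i) * g i * F.R w) (a i j) (β i j) = 0 := by
  classical
  set a' : Fin n' × Fin k → d := fun s => a s.1 s.2 with ha'
  have key : ∀ G : Fin n' → Matrix d d ℂ,
      tf (fun β α : Fin n' × Fin k → d =>
        if β = a' then algebraMap ℚ ℂ (c (fun i j => α (i, j))) else 0) G =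
      ∑ β, algebraMap ℚ ℂ (c β) * ∏ i, ∏ j, G i (a i j) (β i j) := by
    intro G
    unfold tf
    rw [Finset.sum_eq_single a']
    · rw [← (Equiv.curry (Fin n') (Fin k) d).sum_comp]
      refine Finset.sum_congr rfl fun α _ => ?_
      beta_reduce
      rw [if_pos rfl, Fintype.prod_prod_type]
      rfl
    · intro β _ hβ
      refine Finset.sum_eq_zero fun α _ => ?_
      beta_reduce
      rw [if_neg hβ, zero_mul]
    · intro h
      exact absurd (Finset.mem_univ _) h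
  have h1 := hnum (fun β α : Fin n' × Fin k → d =>
      if β = a' then algebraMap ℚ ℂ (c (fun i j => α (i, j))) else 0)
    (fun β α => by
      by_cases hβ : β = a'
      · rw [if_pos hβ]
        exact (IntermediateField.adjoin ℚ {w}).algebraMap_mem _
      · rw [if_neg hβ]
        exact (IntermediateField.adjoin ℚ {w}).zero_mem)
    (by
      rw [key (fun i => F.Y (w - κ i) * F.R w)]
      exact hc) g hg
  rw [key (fun i => F.Y (w - κ i) * g i * F.R w)] at h1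
  exact h1

/-- ELZ -/
theorem elz (hnmz : NmzStmt) (htrp : TrpStmt) : ElzStmt := by
  classical
  intro d _ _ F k A
  obtain ⟨D1, hD1⟩ := hnmz d F
  obtain ⟨D0, hD0⟩ : ∃ D0, D0 = D1 + 1 := ⟨_, rfl⟩
  have hD0pos : 0 < D0 := by omega
  obtain ⟨D, hD⟩ : ∃ D, D = (Fintype.card d ^ k) ^ 2 := ⟨_, rfl⟩
  have hcard : Fintype.card (Fin k → d) ^ 2 = D := by
    rw [hD, Fintype.card_fun, Fintype.card_fin]
  refine ⟨D0 * D, fun m a K => ?_⟩
  obtain ⟨Rt, hRt⟩ := htrp.1 m a D0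
  have hN : ∀ n' : ℕ, ∀ κ : Fin n' → Fin (K + D0), ∃ R0 : ℝ,
      Sep D0 (fun i => (κ i : ℕ)) → ∀ M0 : Set (Matrix d d ℂ), Core (F.mo Set.univ) M0 →
      ∀ w ∈ Pts m (a + 1), R0 ≤ ‖w‖ →
      ∀ (a : Fin n' → Fin k → d) (c : (Fin n' → Fin k → d) → ℚ),
      ∑ β, algebraMap ℚ ℂ (c β) *
        ∏ i, ∏ j, (F.Y (w - (κ i : ℕ)) * F.R w) (a i j) (β i j) = 0 →
      ∀ g : Fin n' → Matrix d d ℂ, (∀ i, g i ∈ M0) →
        ∑ β, algebraMap ℚ ℂ (c β) *
          ∏ i, ∏ j, (F.Y (w - (κ i : ℕ)) * g i * F.R w) (a i j) (β i j) = 0 := by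
    intro n' κ
    by_cases hκ : Sep D0 (fun i => (κ i : ℕ))
    · obtain ⟨R0, hR0⟩ := hD1 (Fin n') (fun i => (κ i : ℕ)) (sep_mono (by omega) hκ) k m (a + 1)
      refine ⟨R0, fun _ M0 hM0 w hw hRw b c hc g hg => ?_⟩
      exact num_rowsZ (fun i => (κ i : ℕ)) M0 w (hR0 M0 hM0 w hw hRw) b c hc g hg
    · exact ⟨0, fun h => absurd h hκ⟩
  choose R0 hR0 using hN
  -- a common bound
  obtain ⟨Rm, hRm⟩ : ∃ Rm : ℝ, ∀ n' : ℕ, n' ≤ D + 1 → ∀ κ : Fin n' → Fin (K + D0),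
      R0 n' κ ≤ Rm := by
    have h1 : ∀ n' : ℕ, ∃ Rm : ℝ, ∀ κ : Fin n' → Fin (K + D0), R0 n' κ ≤ Rm := by
      intro n'
      obtain ⟨b, hb⟩ := (Set.finite_range (R0 n')).bddAbove
      exact ⟨b, fun κ => hb ⟨κ, rfl⟩⟩
    choose Rm hRm using h1
    obtain ⟨b, hb⟩ := ((Set.finite_Iic (D + 1)).image Rm).bddAbove
    exact ⟨b, fun n' hn' κ => (hRm n' κ).trans (hb ⟨n', hn', rfl⟩)⟩
  refine ⟨max Rt (Rm + D0), fun M0 hM0 P _ w hw hRw => ?_⟩
  have hRw1 : Rt ≤ ‖w‖ := (le_max_left _ _).trans hRw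
  have hRw2 : Rm + D0 ≤ ‖w‖ := (le_max_right _ _).trans hRw
  obtain ⟨v, hv⟩ : ∃ v : ℂ, v = w + D0 := ⟨_, rfl⟩
  have hvP : v ∈ Pts m (a + 1) := by
    have h1 := hRt w hw hRw1 (D0 : ℤ) (by simp)
    rw [Int.cast_natCast] at h1
    rw [hv]
    exact h1
  have hvn : Rm ≤ ‖v‖ := by
    have h1 : ‖w‖ ≤ ‖v‖ + D0 := by
      have h2 : w = v - (D0 : ℂ) := by rw [hv]; ring
      calc ‖w‖ = ‖v - (D0 : ℂ)‖ := by rw [← h2]
        _ ≤ ‖v‖ + ‖(D0 : ℂ)‖ := norm_sub_le _ _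
        _ = ‖v‖ + D0 := by rw [Complex.norm_natCast]
    linarith
  by_contra hcon
  push Not at hcon
  obtain ⟨S, hS⟩ : ∃ S : Set ℕ, S = {κ : ℕ | κ < K ∧ Exz F M0 A P (w - κ)} := ⟨_, rfl⟩
  have hfin : S.Finite := by
    rw [hS]
    exact (Set.finite_lt_nat K).subset fun κ hκ => hκ.1
  have hScard : D0 * D < hfin.toFinset.card := by
    rw [← Set.ncard_eq_toFinset_card _ hfin, hS]
    exact hcon
  -- a class modulo `D0` with more than `D` elements
  obtain ⟨r, -, hr⟩ := Finset.exists_lt_card_fiber_of_mul_lt_card_of_maps_to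
    (s := hfin.toFinset) (t := Finset.range D0) (f := fun m => m % D0) (n := D)
    (fun m _ => Finset.mem_range.2 (Nat.mod_lt _ hD0pos)) (by
      rw [Finset.card_range]
      exact hScard)
  obtain ⟨T, hTsub, hTcard⟩ := Finset.exists_subset_card_eq (Nat.succ_le_of_lt hr)
  have e : T ≃ Fin (D + 1) := T.equivFinOfCardEq hTcard
  have hmem' : ∀ i, ((e.symm i : T) : ℕ) ∈
      Finset.filter (fun m => m % D0 = r) hfin.toFinset := fun i => hTsub (e.symm i).2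
  have hmem : ∀ i, ((e.symm i : T) : ℕ) < K ∧ Exz F M0 A P (w - ((e.symm i : T) : ℕ)) := by
    intro i
    have h1 := hfin.mem_toFinset.1 (Finset.mem_filter.1 (hmem' i)).1
    rw [hS] at h1
    exact h1
  have hmod : ∀ i, ((e.symm i : T) : ℕ) % D0 = r := fun i => (Finset.mem_filter.1 (hmem' i)).2
  obtain ⟨κ, hκval⟩ : ∃ κ : Fin (D + 1) → Fin (K + D0), ∀ i,
      (κ i : ℕ) = ((e.symm i : T) : ℕ) + D0 :=
    ⟨fun i => ⟨((e.symm i : T) : ℕ) + D0, by
      have h1 := (hmem i).1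
      omega⟩, fun i => rfl⟩
  have hsep : Sep D0 (fun i => (κ i : ℕ)) := by
    refine ⟨fun i => ?_, fun i j hij => ?_⟩
    · show D0 ≤ (κ i : ℕ)
      rw [hκval]
      omega
    · have h1 : ((e.symm i : T) : ℕ) ≠ ((e.symm j : T) : ℕ) := fun h =>
        hij (e.symm.injective (Subtype.ext h))
      show D0 ≤ (κ i : ℕ) - (κ j : ℕ) ∨ D0 ≤ (κ j : ℕ) - (κ i : ℕ)
      rw [hκval, hκval]
      rcases dist_of_mod h1 ((hmod i).trans (hmod j).symm) with h4 | h4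
      · left; omega
      · right; omega
  have hvw : ∀ i, v - (κ i : ℕ) = w - ((e.symm i : T) : ℕ) := by
    intro i
    rw [hκval, hv, Nat.cast_add]
    ring
  choose t ht ht2 using fun i => (hmem i).2
  obtain ⟨E, hRE, hER⟩ := r_inv F v
  have hY' : ∀ i, F.Y (w - ((e.symm i : T) : ℕ)) = F.Y (v - (κ i : ℕ)) * F.R v * E := by
    intro i
    rw [hvw i, Matrix.mul_assoc, hRE, Matrix.mul_one]
  obtain ⟨i, hi⟩ := greedy_group (k := ℚ) (K := ℂ) (ι := Fin k → d) (α := Fin k → d)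
    (G := Matrix d d ℂ) (J := D + 1) (by rw [hcard]; exact Nat.lt_succ_self D) t A
    (fun i a γ => ∏ j, (F.Y (v - (κ i : ℕ)) * F.R v) (a j) (γ j)) M0 1 hM0.grp.one
    (fun i g a γ => ∏ j, (F.Y (v - (κ i : ℕ)) * g * F.R v) (a j) (γ j))
    (fun i a => by
      funext γ
      rw [Matrix.mul_one])
    (fun β γ => ∏ j, (E * Pᵀ) (γ j) (β j))
    (by
      intro n' hn' a c hc g hg
      have h1 : R0 n' (fun i => κ (Fin.castLE hn' i)) ≤ ‖v‖ := (hRm n' hn' _).trans hvn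
      have hsep' : Sep D0 (fun i => ((κ (Fin.castLE hn' i) : Fin (K + D0)) : ℕ)) :=
        ⟨fun i => hsep.1 _, fun i j hij => hsep.2 _ _ fun h =>
          hij (Fin.castLE_injective hn' h)⟩
      exact hR0 n' (fun i => κ (Fin.castLE hn' i)) hsep' M0 hM0 v hvP h1 a c hc g hg)
    (by
      intro i a ha
      have h1 := ht i a ha
      unfold Family.per at h1
      rw [hY' i] at h1
      rw [sum_prod (t i) P (F.Y (v - (κ i : ℕ)) * F.R v) E a] at h1
      exact h1)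
  obtain ⟨g, hg, a, ha, hne⟩ := ht2 i
  apply hne
  have h1 := hi g hg a ha
  rw [← sum_prod (t i) P (F.Y (v - (κ i : ℕ)) * g * F.R v) E a] at h1
  have h2 : F.Y (v - (κ i : ℕ)) * g * F.R v * E = F.Y (w - ((e.symm i : T) : ℕ)) * g := by
    rw [← hvw i, Matrix.mul_assoc, hRE, Matrix.mul_one]
  rw [h2] at h1
  exact h1

end Pool.Agent.MTN.H64
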